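import Pool.Agent.Y767.HT.Base

set_option autoImplicit false

open Set Filter Topology

namespace Pool.Agent.Results.MP_d12f8b_an.HeightsOnlyGrow

/-- The Cantor-Bendixson derivatives of a topological space: `K^(0) = K`, `K^(α+1)` is the set of
accumulation points of `K^(α)`, and intersections are taken at limit ordinals. -/
def cbDeriv (K : Type) [TopologicalSpace K] (α : Ordinal.{0}) : Set K :=
  Ordinal.limitRecOn α univ (fun _ A => derivedSet A) (fun β _ ih => ⋂ γ : Set.Iio β, ih γ.1 γ.2)

/-- The height: the least ordinal `α` with `K^(α)` empty. -/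
noncomputable def height (K : Type) [TopologicalSpace K] : Ordinal.{0} :=
  sInf {α | cbDeriv K α = ∅}

/-- Some countable compact Hausdorff spaces `K` and `L` of heights `a` and `b` have a linear
bijection `F` of `C(K)` onto `C(L)` which is order preserving and satisfies `R K L F`. -/
def HasMap (a b : ℕ) (R : ∀ (K L : Type) [TopologicalSpace K] [TopologicalSpace L] [CompactSpace K]
    [CompactSpace L], (C(K, ℝ) →ₗ[ℝ] C(L, ℝ)) → Prop) : Prop :=
  ∃ (K L : Type) (_ : TopologicalSpace K) (_ : TopologicalSpace L) (_ : CompactSpace K)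
    (_ : CompactSpace L), T2Space K ∧ T2Space L ∧ Countable K ∧ Countable L ∧
    height K = a ∧ height L = b ∧ ∃ F : C(K, ℝ) →ₗ[ℝ] C(L, ℝ),
      Function.Bijective F ∧ (∀ f g : C(K, ℝ), f ≤ g → F f ≤ F g) ∧ R K L F

open Pool.Agent.Y767.HT

lemma cbDeriv_nat (K : Type) [TopologicalSpace K] (n : ℕ) : cbDeriv K n = cbn K n := by
  induction n with
  | zero =>
    rw [Nat.cast_zero]
    unfold cbDeriv
    rw [Ordinal.limitRecOn_zero]
    rfl
  | succ n ih =>
    rw [Nat.cast_succ]
    unfold cbDeriv at ih ⊢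
    rw [Ordinal.limitRecOn_add_one, ih]
    rfl

lemma height_of_hasHt {K : Type} [TopologicalSpace K] {n : ℕ} (h : HasHt K n) :
    height K = n := by
  unfold height
  have h1 : cbDeriv K n = ∅ := by rw [cbDeriv_nat]; exact h.1
  apply le_antisymm (csInf_le' (show (n : Ordinal.{0}) ∈ {α | cbDeriv K α = ∅} from h1))
  apply le_csInf (show {α : Ordinal.{0} | cbDeriv K α = ∅}.Nonempty from ⟨_, h1⟩)
  intro b hb
  by_contra hlt
  push Not at hlt
  obtain ⟨m, rfl⟩ := Ordinal.lt_omega0.1 (hlt.trans (Ordinal.natCast_lt_omega0 n))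
  have hm : m < n := by exact_mod_cast hlt
  have h2 : cbDeriv K m = ∅ := hb
  rw [cbDeriv_nat] at h2
  exact (h.2 m hm).ne_empty h2

lemma cbn_of_height {K : Type} [TopologicalSpace K] {n : ℕ} (h : height K = n) (hn : 0 < n) :
    cbn K n = ∅ ∧ ∀ m < n, (cbn K m).Nonempty := by
  have hne : {α : Ordinal.{0} | cbDeriv K α = ∅}.Nonempty := by
    by_contra he
    rw [not_nonempty_iff_eq_empty] at he
    unfold height at h
    rw [he, Ordinal.sInf_empty] at h
    have : (n : Ordinal.{0}) = ((0 : ℕ) : Ordinal.{0}) := by rw [← h, Nat.cast_zero]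
    have := Nat.cast_injective this
    omega
  constructor
  · have h1 := csInf_mem hne
    have h2 : cbDeriv K (height K) = ∅ := h1
    rwa [h, cbDeriv_nat] at h2
  · intro m hm
    rw [nonempty_iff_ne_empty]
    intro h1
    rw [← cbDeriv_nat] at h1
    have h2 : height K ≤ m := csInf_le' h1
    rw [h] at h2
    have : n ≤ m := by exact_mod_cast h2
    omega

/-- **Heights under positive linear isomorphisms: they can only grow, and they can grow
arbitrarily.** For natural numbers `a ≥ 2` and `b ≥ 1` the following are equivalent.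
1. `a ≤ b`.
2. For some countable compact Hausdorff spaces `K` and `L` of heights `a` and `b` there is an order
   preserving linear bijection `F` of `C(K)` onto `C(L)`.
3. The same, with `F 1 = 1`, `F` of Lipschitz constant `1` and `F⁻¹` of Lipschitz constant
   `5 ^ (b - a)`. -/
theorem result (a b : ℕ) (ha : 2 ≤ a) (hb : 1 ≤ b) :
    List.TFAE [a ≤ b,
      HasMap a b fun _ _ _ _ _ _ _ => True,
      HasMap a b fun _ _ _ _ _ _ F => F 1 = 1 ∧ (∀ f g, ‖F f - F g‖ ≤ ‖f - g‖) ∧
        ∀ f g, ‖f - g‖ ≤ 5 ^ (b - a) * ‖F f - F g‖] := by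
  tfae_have 3 → 2 := by
    rintro ⟨K, L, i1, i2, i3, i4, h1, h2, h3, h4, h5, h6, F, h7, h8, -⟩
    exact ⟨K, L, i1, i2, i3, i4, h1, h2, h3, h4, h5, h6, F, h7, h8, trivial⟩
  tfae_have 2 → 1 := by
    rintro ⟨K, L, i1, i2, i3, i4, h1, h2, h3, h4, h5, h6, F, h7, h8, -⟩
    by_contra hlt
    push Not at hlt
    have hpos : ∀ f : C(K, ℝ), 0 ≤ f → 0 ≤ F f := by
      intro f hf
      have := h8 0 f hf
      rwa [map_zero] at this
    have hK := (cbn_of_height h5 (by omega)).2 (a - 1) (by omega)
    have hL := nonempty_of hpos h7 (a - 1) hK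
    have h9 := (cbn_of_height h6 hb).1
    have h10 := cbn_antitone L (show b ≤ a - 1 by omega)
    rw [h9] at h10
    exact hL.ne_empty (subset_empty_iff.1 h10)
  tfae_have 1 → 3 := by
    intro hab
    obtain ⟨K, L, i1, i2, i3, i4, h1, h2, h3, h4, h5, h6, T, k1, k2, k3, k4⟩ := good (a - 2) (b - a)
    have e1 : a - 2 + 2 = a := by omega
    have e2 : a - 2 + (b - a) + 2 = b := by omega
    rw [e1] at h5
    rw [e2] at h6
    refine ⟨K, L, i1, i2, i3, i4, h1, h2, h3, h4, height_of_hasHt h5, height_of_hasHt h6,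
      (T : C(K, ℝ) →ₗ[ℝ] C(L, ℝ)), T.bijective, ?_, k1, ?_, ?_⟩
    · intro f g hfg
      have h7 := k2 (g - f) (sub_nonneg.2 hfg)
      rw [map_sub] at h7
      exact sub_nonneg.1 h7
    · intro f g
      have := k3 (f - g)
      rwa [map_sub] at this
    · intro f g
      have h7 := k4 (T f - T g)
      rw [map_sub, LinearEquiv.symm_apply_apply, LinearEquiv.symm_apply_apply] at h7
      exact h7
  tfae_finish

end Pool.Agent.Results.MP_d12f8b_an.HeightsOnlyGrow
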